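import Mathlib

/-!
# Hidden hyperplane convexity does not give finitely many good aggregations
-/

set_option autoImplicit false

namespace Pool.Agent.Results.MP_9b412f_an.InfinitelyMany

open Matrix

/-- The data `A_i` (symmetric), `b_i`, `c_i` of `m` quadratic functions on `ℝⁿ`. -/
structure QuadSys (n m : ℕ) where
  A : Fin m → Matrix (Fin n) (Fin n) ℝ
  symm : ∀ i, (A i).IsSymm
  b : Fin m → Fin n → ℝ
  c : Fin m → ℝ

namespace QuadSys

variable {n m : ℕ} (D : QuadSys n m)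

/-- `f_i(x) = xᵀ A_i x + 2 b_iᵀ x + c_i`. -/
def f (i : Fin m) (x : Fin n → ℝ) : ℝ := x ⬝ᵥ (D.A i *ᵥ x) + 2 * (D.b i ⬝ᵥ x) + D.c i

/-- `S = {x : f_i(x) < 0 for all i}`. -/
def S : Set (Fin n → ℝ) := {x | ∀ i, D.f i x < 0}

/-- `Q_i = [[A_i, b_i], [b_iᵀ, c_i]]`. -/
def Q (i : Fin m) : Matrix (Fin n ⊕ Unit) (Fin n ⊕ Unit) ℝ :=
  Matrix.fromBlocks (D.A i) (Matrix.of fun j _ => D.b i j) (Matrix.of fun _ j => D.b i j)
    (Matrix.of fun _ _ => D.c i)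

/-- The homogeneous quadratic map `f^h : ℝ^{n+1} → ℝ^m`. -/
def fh (z : Fin n ⊕ Unit → ℝ) : Fin m → ℝ := fun i => z ⬝ᵥ (D.Q i *ᵥ z)

/-- Hidden hyperplane convexity. -/
def HHC : Prop := ∀ H : Submodule ℝ (Fin n ⊕ Unit → ℝ), Module.finrank ℝ H = n →
  Convex ℝ (D.fh '' (H : Set (Fin n ⊕ Unit → ℝ)))

/-- `Q_λ`. -/
def Qagg (l : Fin m → ℝ) : Matrix (Fin n ⊕ Unit) (Fin n ⊕ Unit) ℝ := ∑ i, l i • D.Q i

/-- `S_λ`. -/
def Sagg (l : Fin m → ℝ) : Set (Fin n → ℝ) := {x | ∑ i, l i * D.f i x < 0}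

/-- `λ` is good: `λ ≥ 0`, `λ ≠ 0`, `Q_λ` has at most one negative eigenvalue (with multiplicity) and
`conv(S) ⊆ S_λ`. -/
def Good (l : Fin m → ℝ) : Prop :=
  (∀ i, 0 ≤ l i) ∧ l ≠ 0 ∧
    (∃ h : (D.Qagg l).IsHermitian, (Finset.univ.filter (fun j => h.eigenvalues j < 0)).card ≤ 1) ∧
    convexHull ℝ D.S ⊆ D.Sagg l

/-- `conv(S)` is described by finitely many good aggregations. -/
def FinDescribed : Prop := ∃ Λ : Finset (Fin m → ℝ), Λ.Nonempty ∧ (∀ l ∈ Λ, D.Good l) ∧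
  convexHull ℝ D.S = ⋂ l ∈ Λ, D.Sagg l

end QuadSys

/-! ### the example -/

/-- `ℝ¹² = ℝ⁶ × ℝ⁶`. -/
def e : Fin 6 ⊕ Fin 6 ≃ Fin (6 + 6) := finSumFinEquiv

/-- The three block matrices. -/
def B : Fin 3 → Matrix (Fin 6 ⊕ Fin 6) (Fin 6 ⊕ Fin 6) ℝ
  | 0 => Matrix.fromBlocks 1 0 0 0
  | 1 => Matrix.fromBlocks 0 0 0 1
  | 2 => Matrix.fromBlocks 0 1 1 0

lemma B_symm (i : Fin 3) : (B i).IsSymm := by
  fin_cases i
  · exact Matrix.IsSymm.fromBlocks (by simp [Matrix.IsSymm]) (by simp) (by simp [Matrix.IsSymm])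
  · exact Matrix.IsSymm.fromBlocks (by simp [Matrix.IsSymm]) (by simp) (by simp [Matrix.IsSymm])
  · exact Matrix.IsSymm.fromBlocks (by simp [Matrix.IsSymm]) (by simp) (by simp [Matrix.IsSymm])

/-- `f = (|X₁|² - 1, |X₂|² - 1, 2 X₁·X₂)`. -/
def D : QuadSys (6 + 6) 3 where
  A i := (B i).submatrix e.symm e.symm
  symm i := (B_symm i).submatrix _
  b := 0
  c := ![-1, -1, 0]

/-- First block. -/
def X1 (x : Fin (6 + 6) → ℝ) : Fin 6 → ℝ := fun j => x (e (Sum.inl j))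
/-- Second block. -/
def X2 (x : Fin (6 + 6) → ℝ) : Fin 6 → ℝ := fun j => x (e (Sum.inr j))

/-- The vector with given blocks. -/
def mk (u v : Fin 6 → ℝ) : Fin (6 + 6) → ℝ := fun i => Sum.elim u v (e.symm i)

@[simp] lemma X1_mk (u v : Fin 6 → ℝ) : X1 (mk u v) = u := by
  ext j; simp [X1, mk]
@[simp] lemma X2_mk (u v : Fin 6 → ℝ) : X2 (mk u v) = v := by
  ext j; simp [X2, mk]

lemma quad_B (i : Fin 3) (x : Fin (6 + 6) → ℝ) :
    x ⬝ᵥ ((B i).submatrix e.symm e.symm *ᵥ x) = (Sum.elim (X1 x) (X2 x)) ⬝ᵥ (B i *ᵥ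
      Sum.elim (X1 x) (X2 x)) := by
  have hx : x = (Sum.elim (X1 x) (X2 x)) ∘ e.symm := by
    ext i
    obtain ⟨j, rfl⟩ := e.surjective i
    cases j <;> simp [X1, X2]
  have h1 : ((B i).submatrix e.symm e.symm *ᵥ x) =
      (B i *ᵥ Sum.elim (X1 x) (X2 x)) ∘ e.symm := by
    conv_lhs => rw [hx]
    rw [Matrix.submatrix_mulVec_equiv]
    congr 1
  calc x ⬝ᵥ ((B i).submatrix e.symm e.symm *ᵥ x)
      = ((Sum.elim (X1 x) (X2 x)) ∘ e.symm) ⬝ᵥ ((B i *ᵥ Sum.elim (X1 x) (X2 x)) ∘ e.symm) := by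
        rw [h1, ← hx]
    _ = _ := Equiv.sum_comp e.symm (fun k => Sum.elim (X1 x) (X2 x) k *
        (B i *ᵥ Sum.elim (X1 x) (X2 x)) k)

lemma quad0 (x : Fin (6 + 6) → ℝ) :
    x ⬝ᵥ ((B 0).submatrix e.symm e.symm *ᵥ x) = X1 x ⬝ᵥ X1 x := by
  rw [quad_B]
  simp [B, Matrix.fromBlocks_mulVec]

lemma quad1 (x : Fin (6 + 6) → ℝ) :
    x ⬝ᵥ ((B 1).submatrix e.symm e.symm *ᵥ x) = X2 x ⬝ᵥ X2 x := by
  rw [quad_B]
  simp [B, Matrix.fromBlocks_mulVec]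

lemma quad2 (x : Fin (6 + 6) → ℝ) :
    x ⬝ᵥ ((B 2).submatrix e.symm e.symm *ᵥ x) = 2 * (X1 x ⬝ᵥ X2 x) := by
  rw [quad_B]
  simp only [B, Matrix.fromBlocks_mulVec]
  simp [dotProduct_comm (X2 x) (X1 x)]
  ring

lemma f0 (x) : D.f 0 x = X1 x ⬝ᵥ X1 x - 1 := by
  simp only [QuadSys.f, D, quad0]
  simp
  ring
lemma f1 (x) : D.f 1 x = X2 x ⬝ᵥ X2 x - 1 := by
  simp only [QuadSys.f, D, quad1]
  simp
  ring
lemma f2 (x) : D.f 2 x = 2 * (X1 x ⬝ᵥ X2 x) := by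
  simp only [QuadSys.f, D, quad2]
  simp

/-! ### homogeneous map -/

/-- First block. -/
def z1 (z : Fin (6 + 6) ⊕ Unit → ℝ) : Fin 6 → ℝ := X1 (fun j => z (Sum.inl j))
/-- Second block. -/
def z2 (z : Fin (6 + 6) ⊕ Unit → ℝ) : Fin 6 → ℝ := X2 (fun j => z (Sum.inl j))
/-- Last coordinate. -/
def z0 (z : Fin (6 + 6) ⊕ Unit → ℝ) : ℝ := z (Sum.inr ())

/-- The vector with given blocks. -/
def mkz (u v : Fin 6 → ℝ) (t : ℝ) : Fin (6 + 6) ⊕ Unit → ℝ := Sum.elim (mk u v) (fun _ => t)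

@[simp] lemma z1_mkz (u v : Fin 6 → ℝ) (t : ℝ) : z1 (mkz u v t) = u := by
  simp only [z1, mkz, Sum.elim_inl]
  exact X1_mk u v
@[simp] lemma z2_mkz (u v : Fin 6 → ℝ) (t : ℝ) : z2 (mkz u v t) = v := by
  simp only [z2, mkz, Sum.elim_inl]
  exact X2_mk u v
@[simp] lemma z0_mkz (u v : Fin 6 → ℝ) (t : ℝ) : z0 (mkz u v t) = t := rfl

lemma fh_eq (i : Fin 3) (z : Fin (6 + 6) ⊕ Unit → ℝ) :
    D.fh z i = (fun j => z (Sum.inl j)) ⬝ᵥ ((B i).submatrix e.symm e.symm *ᵥ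
      (fun j => z (Sum.inl j))) + D.c i * z0 z ^ 2 := by
  have hz : z = Sum.elim (fun j => z (Sum.inl j)) (fun j => z (Sum.inr j)) := by
    ext j; cases j <;> rfl
  unfold QuadSys.fh QuadSys.Q
  conv_lhs => rw [hz]
  rw [Matrix.fromBlocks_mulVec, sumElim_dotProduct_sumElim]
  simp only [D]
  congr 1
  · congr 1
    ext j
    simp [Matrix.mulVec, dotProduct]
  · simp [Matrix.mulVec, dotProduct, z0]
    ring

lemma fh0 (z) : D.fh z 0 = z1 z ⬝ᵥ z1 z - z0 z ^ 2 := by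
  rw [fh_eq, quad0]
  simp [D, z1]
  ring
lemma fh1 (z) : D.fh z 1 = z2 z ⬝ᵥ z2 z - z0 z ^ 2 := by
  rw [fh_eq, quad1]
  simp [D, z2]
  ring
lemma fh2 (z) : D.fh z 2 = 2 * (z1 z ⬝ᵥ z2 z) := by
  rw [fh_eq, quad2]
  simp [D, z1, z2]

lemma z1_add (z w) : z1 (z + w) = z1 z + z1 w := rfl
lemma z2_add (z w) : z2 (z + w) = z2 z + z2 w := rfl
lemma z0_add (z w) : z0 (z + w) = z0 z + z0 w := rfl
lemma z1_smul (a : ℝ) (z) : z1 (a • z) = a • z1 z := rfl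
lemma z2_smul (a : ℝ) (z) : z2 (a • z) = a • z2 z := rfl
lemma z0_smul (a : ℝ) (z) : z0 (a • z) = a * z0 z := rfl

lemma fh_smul (a : ℝ) (z) : D.fh (a • z) = a ^ 2 • D.fh z := by
  ext i
  fin_cases i
  · change D.fh (a • z) 0 = a ^ 2 * D.fh z 0
    rw [fh0, fh0, z1_smul, z0_smul]; simp; ring
  · change D.fh (a • z) 1 = a ^ 2 * D.fh z 1
    rw [fh1, fh1, z2_smul, z0_smul]; simp; ring
  · change D.fh (a • z) 2 = a ^ 2 * D.fh z 2
    rw [fh2, fh2, z1_smul, z2_smul]; simp; ring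

/-- Two orthonormal directions in the constraint space. -/
lemma exists_dir (H : Submodule ℝ (Fin (6 + 6) ⊕ Unit → ℝ)) (hH : Module.finrank ℝ H = 6 + 6)
    (a b u : Fin 6 → ℝ) : ∃ v : Fin 6 → ℝ, v ≠ 0 ∧ mkz v 0 0 ∈ H ∧ mkz 0 v 0 ∈ H ∧
      a ⬝ᵥ v = 0 ∧ b ⬝ᵥ v = 0 ∧ u ⬝ᵥ v = 0 := by
  let L1 : (Fin 6 → ℝ) →ₗ[ℝ] (Fin (6 + 6) ⊕ Unit → ℝ) :=
    { toFun := fun v => mkz v 0 0
      map_add' := by
        intro v w; ext j
        cases j with
        | inl j => obtain ⟨k, rfl⟩ := e.surjective j; cases k <;> simp [mkz, mk]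
        | inr j => simp [mkz]
      map_smul' := by
        intro v w; ext j
        cases j with
        | inl j => obtain ⟨k, rfl⟩ := e.surjective j; cases k <;> simp [mkz, mk]
        | inr j => simp [mkz] }
  let L2 : (Fin 6 → ℝ) →ₗ[ℝ] (Fin (6 + 6) ⊕ Unit → ℝ) :=
    { toFun := fun v => mkz 0 v 0
      map_add' := by
        intro v w; ext j
        cases j with
        | inl j => obtain ⟨k, rfl⟩ := e.surjective j; cases k <;> simp [mkz, mk]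
        | inr j => simp [mkz]
      map_smul' := by
        intro v w; ext j
        cases j with
        | inl j => obtain ⟨k, rfl⟩ := e.surjective j; cases k <;> simp [mkz, mk]
        | inr j => simp [mkz] }
  let dp : (Fin 6 → ℝ) → (Fin 6 → ℝ) →ₗ[ℝ] ℝ := fun a =>
    { toFun := fun v => a ⬝ᵥ v
      map_add' := fun v w => dotProduct_add a v w
      map_smul' := fun c v => by simp }
  let L : (Fin 6 → ℝ) →ₗ[ℝ] (_ ⧸ H) × (_ ⧸ H) × ℝ × ℝ × ℝ :=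
    (H.mkQ.comp L1).prod ((H.mkQ.comp L2).prod ((dp a).prod ((dp b).prod (dp u))))
  have hq : Module.finrank ℝ ((Fin (6 + 6) ⊕ Unit → ℝ) ⧸ H) = 1 := by
    have := H.finrank_quotient_add_finrank
    rw [hH] at this
    simp at this
    omega
  have hL : LinearMap.ker L ≠ ⊥ := by
    apply LinearMap.ker_ne_bot_of_finrank_lt
    rw [Module.finrank_prod, Module.finrank_prod, Module.finrank_prod, Module.finrank_prod, hq]
    simp
  obtain ⟨v, hv, hv0⟩ := (Submodule.ne_bot_iff _).1 hL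
  rw [LinearMap.mem_ker] at hv
  have hv' : (H.mkQ (L1 v), H.mkQ (L2 v), dp a v, dp b v, dp u v) =
    ((0, 0, 0, 0, 0) : (_ ⧸ H) × (_ ⧸ H) × ℝ × ℝ × ℝ) := hv
  simp only [Prod.mk.injEq] at hv'
  obtain ⟨k1, k2, k3, k4, k5⟩ := hv'
  exact ⟨v, hv0, (Submodule.Quotient.mk_eq_zero H).1 k1, (Submodule.Quotient.mk_eq_zero H).1 k2,
    k3, k4, k5⟩

lemma dot_pos {v : Fin 6 → ℝ} (hv : v ≠ 0) : 0 < v ⬝ᵥ v := by
  have h2 : v ⬝ᵥ v ≠ 0 := fun h => hv (dotProduct_self_eq_zero.1 h)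
  have h3 : 0 ≤ v ⬝ᵥ v := Finset.sum_nonneg fun i _ => mul_self_nonneg (v i)
  exact lt_of_le_of_ne h3 (Ne.symm h2)

lemma dot_nonneg (v : Fin 6 → ℝ) : 0 ≤ v ⬝ᵥ v := by
  by_cases hv : v = 0
  · simp [hv]
  · exact (dot_pos hv).le

/-- Isometric copy of a pair of vectors inside the constraint space. -/
lemma exists_copy (H : Submodule ℝ (Fin (6 + 6) ⊕ Unit → ℝ)) (hH : Module.finrank ℝ H = 6 + 6)
    (a b p q : Fin 6 → ℝ) : ∃ P Q : Fin 6 → ℝ, mkz P Q 0 ∈ H ∧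
      a ⬝ᵥ P = 0 ∧ a ⬝ᵥ Q = 0 ∧ b ⬝ᵥ P = 0 ∧ b ⬝ᵥ Q = 0 ∧
      P ⬝ᵥ P = p ⬝ᵥ p ∧ P ⬝ᵥ Q = p ⬝ᵥ q ∧ Q ⬝ᵥ Q = q ⬝ᵥ q := by
  obtain ⟨v, hv0, v1, v2, va, vb, -⟩ := exists_dir H hH a b 0
  obtain ⟨w, hw0, w1, w2, wa, wb, vw⟩ := exists_dir H hH a b v
  -- normalise
  obtain ⟨x, y, s, hx, hy, hs⟩ : ∃ x y s : ℝ, x * x = p ⬝ᵥ p ∧ x * y = p ⬝ᵥ q ∧
      y * y + s * s = q ⬝ᵥ q := by
    by_cases hp : p = 0
    · refine ⟨0, 0, Real.sqrt (q ⬝ᵥ q), by simp [hp], by simp [hp], ?_⟩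
      rw [Real.mul_self_sqrt (dot_nonneg q)]; ring
    · have hpp := dot_pos hp
      have hcs : (p ⬝ᵥ q) ^ 2 ≤ (p ⬝ᵥ p) * (q ⬝ᵥ q) := by
        have h := dot_nonneg ((p ⬝ᵥ p) • q - (p ⬝ᵥ q) • p)
        have h2 : ((p ⬝ᵥ p) • q - (p ⬝ᵥ q) • p) ⬝ᵥ ((p ⬝ᵥ p) • q - (p ⬝ᵥ q) • p) =
            (p ⬝ᵥ p) * ((p ⬝ᵥ p) * (q ⬝ᵥ q) - (p ⬝ᵥ q) ^ 2) := by
          simp only [sub_dotProduct, dotProduct_sub, smul_dotProduct, dotProduct_smul,
            dotProduct_comm q p, smul_eq_mul]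
          ring
        rw [h2] at h
        have := nonneg_of_mul_nonneg_right h hpp
        linarith
      refine ⟨Real.sqrt (p ⬝ᵥ p), (p ⬝ᵥ q) / Real.sqrt (p ⬝ᵥ p),
        Real.sqrt (q ⬝ᵥ q - (p ⬝ᵥ q) ^ 2 / (p ⬝ᵥ p)), Real.mul_self_sqrt hpp.le, ?_, ?_⟩
      · have : Real.sqrt (p ⬝ᵥ p) ≠ 0 := (Real.sqrt_pos.2 hpp).ne'
        field_simp
      · rw [Real.mul_self_sqrt, div_mul_div_comm, Real.mul_self_sqrt hpp.le]
        · ring
        · rw [sub_nonneg, div_le_iff₀ hpp]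
          linarith
  have hvv := dot_pos hv0
  have hww := dot_pos hw0
  set α := Real.sqrt (v ⬝ᵥ v) with hα
  set β := Real.sqrt (w ⬝ᵥ w) with hβ
  have hα0 : α ≠ 0 := (Real.sqrt_pos.2 hvv).ne'
  have hβ0 : β ≠ 0 := (Real.sqrt_pos.2 hww).ne'
  have hα2 : v ⬝ᵥ v = α * α := (Real.mul_self_sqrt hvv.le).symm
  have hβ2 : w ⬝ᵥ w = β * β := (Real.mul_self_sqrt hww.le).symm
  have wv : w ⬝ᵥ v = 0 := by rw [dotProduct_comm]; exact vw
  refine ⟨(x / α) • v, (y / α) • v + (s / β) • w, ?_, ?_, ?_, ?_, ?_, ?_, ?_, ?_⟩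
  · have hmk : mkz ((x / α) • v) ((y / α) • v + (s / β) • w) 0 =
        (x / α) • mkz v 0 0 + (y / α) • mkz 0 v 0 + (s / β) • mkz 0 w 0 := by
      ext j
      cases j with
      | inl j => obtain ⟨k, rfl⟩ := e.surjective j; cases k <;> simp [mkz, mk]
      | inr j => simp [mkz]
    rw [hmk]
    exact H.add_mem (H.add_mem (H.smul_mem _ v1) (H.smul_mem _ v2)) (H.smul_mem _ w2)
  · simp [va]
  · simp [va, wa]
  · simp [vb]
  · simp [vb, wb]
  · simp only [smul_dotProduct, dotProduct_smul, smul_eq_mul, hα2, ← hx]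
    field_simp
  · simp only [smul_dotProduct, dotProduct_smul, dotProduct_add, smul_eq_mul, hα2, vw, ← hy]
    field_simp
    ring
  · simp only [smul_dotProduct, dotProduct_smul, dotProduct_add, add_dotProduct, smul_eq_mul,
      hα2, hβ2, vw, wv, ← hs]
    field_simp
    ring

lemma fh_add (H : Submodule ℝ (Fin (6 + 6) ⊕ Unit → ℝ)) (hH : Module.finrank ℝ H = 6 + 6)
    {z w : Fin (6 + 6) ⊕ Unit → ℝ} (hz : z ∈ H) (hw : w ∈ H) :
    ∃ y ∈ H, D.fh y = D.fh z + D.fh w := by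
  obtain ⟨c, s, hcs, hc⟩ : ∃ c s : ℝ, c ^ 2 + s ^ 2 = 1 ∧ -s * z0 z + c * z0 w = 0 := by
    by_cases h0 : z0 z ^ 2 + z0 w ^ 2 = 0
    · have h1 : z0 z = 0 := by nlinarith [sq_nonneg (z0 z), sq_nonneg (z0 w)]
      have h2 : z0 w = 0 := by nlinarith [sq_nonneg (z0 z), sq_nonneg (z0 w)]
      exact ⟨1, 0, by norm_num, by rw [h1, h2]; ring⟩
    · have hpos : 0 < z0 z ^ 2 + z0 w ^ 2 :=
        lt_of_le_of_ne (by positivity) (Ne.symm h0)
      set r := Real.sqrt (z0 z ^ 2 + z0 w ^ 2) with hr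
      have hr0 : r ≠ 0 := (Real.sqrt_pos.2 hpos).ne'
      have hr2 : r ^ 2 = z0 z ^ 2 + z0 w ^ 2 := Real.sq_sqrt hpos.le
      refine ⟨z0 z / r, z0 w / r, ?_, ?_⟩
      · rw [div_pow, div_pow, ← add_div, hr2, div_self h0]
      · field_simp
        ring
  set x := c • z + s • w with hx
  set y := (-s) • z + c • w with hy
  have hxH : x ∈ H := H.add_mem (H.smul_mem _ hz) (H.smul_mem _ hw)
  obtain ⟨P, Q, hPQ, p1, p2, p3, p4, p5, p6, p7⟩ := exists_copy H hH (z1 x) (z2 x) (z1 y) (z2 y)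
  have hy0 : z0 y = 0 := by rw [hy, z0_add, z0_smul, z0_smul]; exact hc
  refine ⟨x + mkz P Q 0, H.add_mem hxH hPQ, ?_⟩
  have g1 : D.fh z + D.fh w = D.fh x + D.fh y := by
    ext i
    fin_cases i
    · change D.fh z 0 + D.fh w 0 = D.fh x 0 + D.fh y 0
      simp only [fh0, hx, hy, z1_add, z1_smul, z0_add, z0_smul, add_dotProduct, dotProduct_add,
        smul_dotProduct, dotProduct_smul, smul_eq_mul]
      linear_combination (-(z1 z ⬝ᵥ z1 z) - (z1 w ⬝ᵥ z1 w) + z0 z ^ 2 + z0 w ^ 2) * hcs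
    · change D.fh z 1 + D.fh w 1 = D.fh x 1 + D.fh y 1
      simp only [fh1, hx, hy, z2_add, z2_smul, z0_add, z0_smul, add_dotProduct, dotProduct_add,
        smul_dotProduct, dotProduct_smul, smul_eq_mul]
      linear_combination (-(z2 z ⬝ᵥ z2 z) - (z2 w ⬝ᵥ z2 w) + z0 z ^ 2 + z0 w ^ 2) * hcs
    · change D.fh z 2 + D.fh w 2 = D.fh x 2 + D.fh y 2
      simp only [fh2, hx, hy, z1_add, z1_smul, z2_add, z2_smul, add_dotProduct, dotProduct_add,
        smul_dotProduct, dotProduct_smul, smul_eq_mul]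
      linear_combination (-2 * (z1 z ⬝ᵥ z2 z) - 2 * (z1 w ⬝ᵥ z2 w)) * hcs
  rw [g1]
  ext i
  fin_cases i
  · change D.fh (x + mkz P Q 0) 0 = D.fh x 0 + D.fh y 0
    rw [fh0, fh0, fh0, z1_add, z0_add, z1_mkz, z0_mkz, hy0]
    simp only [add_dotProduct, dotProduct_add, p5, p1, dotProduct_comm P (z1 x)]
    ring
  · change D.fh (x + mkz P Q 0) 1 = D.fh x 1 + D.fh y 1
    rw [fh1, fh1, fh1, z2_add, z0_add, z2_mkz, z0_mkz, hy0]
    simp only [add_dotProduct, dotProduct_add, p7, p4, dotProduct_comm Q (z2 x)]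
    ring
  · change D.fh (x + mkz P Q 0) 2 = D.fh x 2 + D.fh y 2
    rw [fh2, fh2, fh2, z1_add, z2_add, z1_mkz, z2_mkz]
    simp only [add_dotProduct, dotProduct_add, p6, p2, dotProduct_comm P (z2 x), p3]
    ring

lemma hhc : D.HHC := by
  intro H hH
  rw [convex_iff_forall_pos]
  rintro _ ⟨z, hz, rfl⟩ _ ⟨w, hw, rfl⟩ a b ha hb hab
  obtain ⟨y, hy, he⟩ := fh_add H hH (H.smul_mem (Real.sqrt a) hz) (H.smul_mem (Real.sqrt b) hw)
  refine ⟨y, hy, ?_⟩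
  rw [he, fh_smul, fh_smul, Real.sq_sqrt ha.le, Real.sq_sqrt hb.le]

/-! ### eigenvalues -/

lemma spectral_form {κ : Type} [Fintype κ] [DecidableEq κ] {Q : Matrix κ κ ℝ}
    (hQ : Q.IsHermitian) : ∃ U : Matrix κ κ ℝ, ∀ z : κ → ℝ,
      z ⬝ᵥ (Q *ᵥ z) = ∑ j, hQ.eigenvalues j * (U *ᵥ z) j ^ 2 := by
  refine ⟨star (hQ.eigenvectorUnitary : Matrix κ κ ℝ), fun z => ?_⟩
  have h := hQ.spectral_theorem
  rw [Unitary.conjStarAlgAut_apply] at h
  conv_lhs => rw [h]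
  rw [← Matrix.mulVec_mulVec, ← Matrix.mulVec_mulVec, Matrix.dotProduct_mulVec]
  have h2 : z ᵥ* (hQ.eigenvectorUnitary : Matrix κ κ ℝ) =
      star (hQ.eigenvectorUnitary : Matrix κ κ ℝ) *ᵥ z := by
    rw [← Matrix.mulVec_transpose]
    congr 1
  rw [h2]
  simp only [dotProduct, Matrix.mulVec_diagonal, Function.comp]
  apply Finset.sum_congr rfl
  intro j _
  simp
  ring

/-- A two-dimensional negative definite plane gives two negative eigenvalues. -/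
lemma two_neg {κ : Type} [Fintype κ] [DecidableEq κ] {Q : Matrix κ κ ℝ}
    (hQ : Q.IsHermitian) (hc : (Finset.univ.filter (fun j => hQ.eigenvalues j < 0)).card ≤ 1)
    (u v : κ → ℝ) : ∃ a b : ℝ, (a ≠ 0 ∨ b ≠ 0) ∧
      0 ≤ (a • u + b • v) ⬝ᵥ (Q *ᵥ (a • u + b • v)) := by
  obtain ⟨U, hU⟩ := spectral_form hQ
  by_cases hne : (Finset.univ.filter (fun j => hQ.eigenvalues j < 0)) = ∅
  · refine ⟨1, 0, Or.inl one_ne_zero, ?_⟩
    rw [hU]
    apply Finset.sum_nonneg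
    intro j _
    have : 0 ≤ hQ.eigenvalues j := by
      by_contra hneg
      have : j ∈ Finset.univ.filter (fun j => hQ.eigenvalues j < 0) := by
        simp only [Finset.mem_filter, Finset.mem_univ, true_and]; exact not_le.1 hneg
      rw [hne] at this
      exact absurd this (Finset.notMem_empty _)
    positivity
  · obtain ⟨j0, hj0⟩ := Finset.nonempty_iff_ne_empty.2 hne
    have huniq : ∀ j, hQ.eigenvalues j < 0 → j = j0 := by
      intro j hj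
      exact Finset.card_le_one.1 hc j (by simp [hj]) j0 hj0
    have key : ∀ a b : ℝ, a * (U *ᵥ u) j0 + b * (U *ᵥ v) j0 = 0 →
        0 ≤ (a • u + b • v) ⬝ᵥ (Q *ᵥ (a • u + b • v)) := by
      intro a b hab
      rw [hU]
      apply Finset.sum_nonneg
      intro j _
      by_cases hj : j = j0
      · subst hj
        have : (U *ᵥ (a • u + b • v)) j = 0 := by
          rw [Matrix.mulVec_add, Matrix.mulVec_smul, Matrix.mulVec_smul]
          exact hab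
        rw [this]; simp
      · have : 0 ≤ hQ.eigenvalues j := not_lt.1 (fun h => hj (huniq j h))
        positivity
    by_cases h0 : (U *ᵥ u) j0 = 0
    · exact ⟨1, 0, Or.inl one_ne_zero, key 1 0 (by rw [h0]; ring)⟩
    · exact ⟨-(U *ᵥ v) j0, (U *ᵥ u) j0, Or.inr h0, key _ _ (by ring)⟩

lemma Qagg_form (l : Fin 3 → ℝ) (z : Fin (6 + 6) ⊕ Unit → ℝ) :
    z ⬝ᵥ (D.Qagg l *ᵥ z) = ∑ i, l i * D.fh z i := by
  unfold QuadSys.Qagg QuadSys.fh
  rw [Matrix.sum_mulVec, dotProduct_sum]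
  apply Finset.sum_congr rfl
  intro i _
  rw [Matrix.smul_mulVec, dotProduct_smul, smul_eq_mul]

/-- Good aggregations satisfy `B_λ ⪰ 0`. -/
lemma good_psd {l : Fin 3 → ℝ} (hl : D.Good l) (p q : ℝ) :
    0 ≤ l 0 * p ^ 2 + l 1 * q ^ 2 + 2 * l 2 * p * q := by
  obtain ⟨-, -, ⟨hQ, hc⟩, -⟩ := hl
  let v0 : Fin 6 → ℝ := Pi.single 0 1
  let v1 : Fin 6 → ℝ := Pi.single 1 1
  obtain ⟨a, b, hab, h⟩ := two_neg hQ hc (mkz (p • v0) (q • v0) 0) (mkz (p • v1) (q • v1) 0)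
  rw [Qagg_form, Fin.sum_univ_three, fh0, fh1, fh2] at h
  have d00 : v0 ⬝ᵥ v0 = 1 := by simp [v0]
  have d11 : v1 ⬝ᵥ v1 = 1 := by simp [v1]
  have d01 : v0 ⬝ᵥ v1 = 0 := by simp [v0, v1]
  have d10 : v1 ⬝ᵥ v0 = 0 := by simp [v0, v1]
  simp only [z1_add, z2_add, z0_add, z1_smul, z2_smul, z0_smul, z1_mkz, z2_mkz, z0_mkz,
    add_dotProduct, dotProduct_add, smul_dotProduct, dotProduct_smul, smul_eq_mul, d00, d11, d01,
    d10] at h
  have h2 : 0 ≤ (a ^ 2 + b ^ 2) * (l 0 * p ^ 2 + l 1 * q ^ 2 + 2 * l 2 * p * q) := by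
    linarith
  have h3 : 0 < a ^ 2 + b ^ 2 := by
    rcases hab with ha | hb
    · have := sq_nonneg b; have : 0 < a ^ 2 := by positivity
      linarith
    · have := sq_nonneg a; have : 0 < b ^ 2 := by positivity
      linarith
  exact nonneg_of_mul_nonneg_right h2 h3

/-! ### the convex hull -/

/-- The convex set `{|s X₁ + t X₂|² < 1}`. -/
def T (s t : ℝ) : Set (Fin (6 + 6) → ℝ) :=
  {x | (s • X1 x + t • X2 x) ⬝ᵥ (s • X1 x + t • X2 x) < 1}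

lemma T_convex (s t : ℝ) : Convex ℝ (T s t) := by
  intro x hx y hy a b ha hb hab
  simp only [T, Set.mem_ofPred_eq] at hx hy ⊢
  set u := s • X1 x + t • X2 x with hu
  set v := s • X1 y + t • X2 y with hv
  have h1 : s • X1 (a • x + b • y) + t • X2 (a • x + b • y) = a • u + b • v := by
    ext j
    simp [hu, hv, X1, X2]
    ring
  rw [h1]
  have h2 := dot_nonneg (u - v)
  simp only [sub_dotProduct, dotProduct_sub, dotProduct_comm v u] at h2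
  simp only [add_dotProduct, dotProduct_add, smul_dotProduct, dotProduct_smul, smul_eq_mul,
    dotProduct_comm v u]
  have h3 : a * (a * (u ⬝ᵥ u)) + b * (a * (u ⬝ᵥ v)) + (a * (b * (u ⬝ᵥ v)) + b * (b * (v ⬝ᵥ v))) =
      a * (u ⬝ᵥ u) + b * (v ⬝ᵥ v) - a * b * (u ⬝ᵥ u - u ⬝ᵥ v - (u ⬝ᵥ v - v ⬝ᵥ v)) := by
    have hb' : b = 1 - a := by linarith
    rw [hb']; ring
  have h4 : 0 ≤ a * b * (u ⬝ᵥ u - u ⬝ᵥ v - (u ⬝ᵥ v - v ⬝ᵥ v)) := by positivity
  have h5 : a * (u ⬝ᵥ u) + b * (v ⬝ᵥ v) < 1 := by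
    rcases ha.eq_or_lt with ha0 | ha0
    · have : b = 1 := by linarith
      rw [← ha0, this]; linarith
    · have := mul_lt_mul_of_pos_left hx ha0
      have := mul_le_mul_of_nonneg_left hy.le hb
      linarith
  linarith

lemma S_sub_T {s t : ℝ} (hs : 0 < s) (ht : 0 < t) (hst : s ^ 2 + t ^ 2 = 1) : D.S ⊆ T s t := by
  intro x hx
  have h0 := hx 0
  have h1 := hx 1
  have h2 := hx 2
  rw [f0] at h0
  rw [f1] at h1
  rw [f2] at h2
  simp only [T, Set.mem_ofPred_eq, add_dotProduct, dotProduct_add, smul_dotProduct,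
    dotProduct_smul, smul_eq_mul, dotProduct_comm (X2 x) (X1 x)]
  have k0 : s ^ 2 * (X1 x ⬝ᵥ X1 x) < s ^ 2 * 1 := mul_lt_mul_of_pos_left (by linarith) (by positivity)
  have k1 : t ^ 2 * (X2 x ⬝ᵥ X2 x) < t ^ 2 * 1 := mul_lt_mul_of_pos_left (by linarith) (by positivity)
  have k2 : s * t * (2 * (X1 x ⬝ᵥ X2 x)) ≤ 0 :=
    mul_nonpos_of_nonneg_of_nonpos (by positivity) h2.le
  nlinarith

lemma hull_sub_T {s t : ℝ} (hs : 0 < s) (ht : 0 < t) (hst : s ^ 2 + t ^ 2 = 1) :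
    convexHull ℝ D.S ⊆ T s t := convexHull_min (S_sub_T hs ht hst) (T_convex s t)

/-- The boundary point. -/
def pt (s t : ℝ) : Fin (6 + 6) → ℝ := mk (s • (Pi.single 0 1 : Fin 6 → ℝ)) (t • Pi.single 0 1)

lemma pt_notMem {s t : ℝ} (hst : s ^ 2 + t ^ 2 = 1) : pt s t ∉ T s t := by
  simp only [T, pt, Set.mem_ofPred_eq, X1_mk, X2_mk, not_lt]
  have d00 : (Pi.single 0 1 : Fin 6 → ℝ) ⬝ᵥ Pi.single 0 1 = 1 := by simp
  simp only [add_dotProduct, dotProduct_add, smul_dotProduct, dotProduct_smul, smul_eq_mul, d00]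
  nlinarith

lemma S_nonempty : D.S.Nonempty := by
  refine ⟨mk ((1 / 2 : ℝ) • (Pi.single 0 1 : Fin 6 → ℝ)) ((-1 / 2 : ℝ) • Pi.single 0 1), ?_⟩
  have d00 : (Pi.single 0 1 : Fin 6 → ℝ) ⬝ᵥ Pi.single 0 1 = 1 := by simp
  intro i
  fin_cases i
  · change D.f 0 _ < 0
    rw [f0, X1_mk]
    simp only [smul_dotProduct, dotProduct_smul, smul_eq_mul, d00]
    norm_num
  · change D.f 1 _ < 0
    rw [f1, X2_mk]
    simp only [smul_dotProduct, dotProduct_smul, smul_eq_mul, d00]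
    norm_num
  · change D.f 2 _ < 0
    rw [f2, X1_mk, X2_mk]
    simp only [smul_dotProduct, dotProduct_smul, smul_eq_mul, d00]
    norm_num

lemma exists_st (r : ℝ) (hr : 0 < r) : ∃ s t : ℝ, 0 < s ∧ 0 < t ∧ s ^ 2 + t ^ 2 = 1 ∧ t = r * s := by
  have hpos : 0 < Real.sqrt (1 + r ^ 2) := Real.sqrt_pos.2 (by positivity)
  have hsq : Real.sqrt (1 + r ^ 2) ^ 2 = 1 + r ^ 2 := Real.sq_sqrt (by positivity)
  refine ⟨1 / Real.sqrt (1 + r ^ 2), r / Real.sqrt (1 + r ^ 2), by positivity, by positivity, ?_, ?_⟩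
  · rw [div_pow, div_pow, hsq, ← add_div, one_pow]
    exact div_self (by positivity)
  · ring

lemma hull_ne : convexHull ℝ D.S ≠ Set.univ := by
  intro h
  obtain ⟨s, t, hs, ht, hst, -⟩ := exists_st 1 one_pos
  exact pt_notMem hst (hull_sub_T hs ht hst (by rw [h]; trivial))

lemma not_fin : ¬ D.FinDescribed := by
  rintro ⟨Λ, -, hgood, heq⟩
  obtain ⟨r, hr, hrΛ⟩ : ∃ r : ℝ, 0 < r ∧ ∀ l ∈ Λ, l 2 / l 0 ≠ r := by
    have hinf : (Set.Ioi (0 : ℝ)).Infinite := Set.Ioi_infinite 0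
    obtain ⟨r, hr, hr'⟩ := hinf.exists_notMem_finset (Λ.image (fun l => l 2 / l 0))
    exact ⟨r, hr, fun l hl e => hr' (Finset.mem_image.2 ⟨l, hl, e⟩)⟩
  obtain ⟨s, t, hs, ht, hst, htr⟩ := exists_st r hr
  have hmem : pt s t ∈ convexHull ℝ D.S := by
    rw [heq]
    simp only [Set.mem_iInter]
    intro l hl
    have hg := hgood l hl
    have hpsd := good_psd hg
    have h0 : 0 ≤ l 0 := hg.1 0
    have h1 : 0 ≤ l 1 := hg.1 1
    have h2 : 0 ≤ l 2 := hg.1 2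
    have d00 : (Pi.single 0 1 : Fin 6 → ℝ) ⬝ᵥ Pi.single 0 1 = 1 := by simp
    simp only [QuadSys.Sagg, Set.mem_ofPred_eq, Fin.sum_univ_three, f0, f1, f2, pt, X1_mk, X2_mk,
      smul_dotProduct, dotProduct_smul, smul_eq_mul, d00]
    -- value is `-(l 0 t² + l 1 s² - 2 l 2 s t)`
    have hpos : 0 < l 0 * r ^ 2 + l 1 - 2 * l 2 * r := by
      have hnn := hpsd r (-1)
      rcases lt_or_eq_of_le (show 0 ≤ l 0 * r ^ 2 + l 1 - 2 * l 2 * r by nlinarith) with h | h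
      · exact h
      · exfalso
        -- derivative at r vanishes
        have hg0 : l 0 * r - l 2 = 0 := by
          by_contra hne
          have hd := hpsd (r - (l 0 * r - l 2) * (1 / (1 + l 0))) (-1)
          have hδ : 0 < 1 / (1 + l 0) := by positivity
          set δ := 1 / (1 + l 0) with hδ'
          have hlδ : l 0 * δ < 1 := by
            rw [hδ', mul_one_div, div_lt_one (by positivity)]; linarith
          have hsq : 0 < (l 0 * r - l 2) ^ 2 := by positivity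
          have hval : l 0 * (r - (l 0 * r - l 2) * δ) ^ 2 + l 1 * (-1) ^ 2 +
              2 * l 2 * (r - (l 0 * r - l 2) * δ) * (-1) =
              (l 0 * r ^ 2 + l 1 - 2 * l 2 * r) + δ * (l 0 * r - l 2) ^ 2 * (l 0 * δ - 2) := by ring
          rw [hval, ← h] at hd
          have : δ * (l 0 * r - l 2) ^ 2 * (l 0 * δ - 2) < 0 :=
            mul_neg_of_pos_of_neg (by positivity) (by linarith)
          linarith
        by_cases hl0 : l 0 = 0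
        · have hl2 : l 2 = 0 := by rw [hl0] at hg0; linarith
          have hl1 : l 1 = 0 := by rw [hl0, hl2] at h; linarith
          apply hg.2.1
          ext i
          fin_cases i
          · exact hl0
          · exact hl1
          · exact hl2
        · apply hrΛ l hl
          field_simp
          linarith
    have hs2 : 0 < s ^ 2 := by positivity
    have hval : l 0 * (s * (s * 1) - 1) + l 1 * (t * (t * 1) - 1) + l 2 * (2 * (t * (s * 1))) =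
        -(s ^ 2 * (l 0 * r ^ 2 + l 1 - 2 * l 2 * r)) := by
      have e1 : t = r * s := htr
      have e2 : s ^ 2 + r ^ 2 * s ^ 2 = 1 := by rw [← hst, e1]; ring
      rw [e1]
      linear_combination (l 0 + l 1) * e2
    rw [hval]
    have := mul_pos hs2 hpos
    linarith
  exact pt_notMem hst (hull_sub_T hs ht hst hmem)

/-- There is a system of three quadratics on `ℝ¹²` with hidden hyperplane convexity, `S ≠ ∅` and
`conv(S) ≠ ℝⁿ`, whose `conv(S)` is not described by finitely many good aggregations. -/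
theorem result : ∃ (n m : ℕ) (D : QuadSys n m), 1 ≤ n ∧ 1 ≤ m ∧ D.HHC ∧ D.S.Nonempty ∧
    convexHull ℝ D.S ≠ Set.univ ∧ ¬ D.FinDescribed :=
  ⟨6 + 6, 3, D, by norm_num, by norm_num, hhc, S_nonempty, hull_ne, not_fin⟩

end Pool.Agent.Results.MP_9b412f_an.InfinitelyMany
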